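import Pool.Agent.H812.Tm.Spec3

/-! Project TM of helper812: partition of a laminated set into curves (`GPart`). -/

set_option autoImplicit false

open Filter Topology Set

namespace Pool.Agent.H332.Tm

open Pool.Agent.H812.Tm

/-- the component of a point in a relatively open subset of a nontrivial interval is nontrivial -/
theorem comp_nontrivial {a b x : ℝ} (hab : a < b) {U : Set ℝ} (hU : IsOpen U)
    (hx : x ∈ Icc a b ∩ U) : (ordConnectedComponent (Icc a b ∩ U) x).Nontrivial := by
  obtain ⟨ε, hε, hball⟩ := Metric.isOpen_iff.1 hU x hx.2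
  have key : ∀ y, y ∈ Icc a b → |y - x| < ε → y ∈ ordConnectedComponent (Icc a b ∩ U) x := by
    intro y hy hyx
    rw [mem_ordConnectedComponent]
    intro z hz
    refine ⟨ordConnected_Icc.uIcc_subset hx.1 hy hz, hball ?_⟩
    rw [Metric.mem_ball, Real.dist_eq]
    exact (abs_sub_left_of_mem_uIcc hz).trans_lt hyx
  have hx' : x ∈ ordConnectedComponent (Icc a b ∩ U) x := self_mem_ordConnectedComponent.2 hx
  rcases hx.1.2.lt_or_eq with hlt | heq
  · refine ⟨x, hx', min (x + ε / 2) b, key _ ⟨?_, min_le_right _ _⟩ ?_, ?_⟩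
    · exact le_min (by linarith [hx.1.1]) hab.le
    · rw [abs_of_nonneg (sub_nonneg.2 (le_min (by linarith) hlt.le))]
      have := min_le_left (x + ε / 2) b
      linarith
    · exact (lt_min (by linarith) hlt).ne
  · refine ⟨x, hx', max (x - ε / 2) a, key _ ⟨le_max_right _ _, ?_⟩ ?_, ?_⟩
    · exact max_le (by linarith [hx.1.2]) hab.le
    · have h1 : max (x - ε / 2) a ≤ x := max_le (by linarith) (by linarith)
      rw [abs_of_nonpos (sub_nonpos.2 h1)]
      have := le_max_left (x - ε / 2) a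
      linarith
    · exact (max_lt (by linarith) (by linarith)).ne'

theorem tGPart : GPart := by
  classical
  intro W K hK hWK G hG hdis hcov
  let im : ((ℝ → ℝ × ℝ × ℝ) × ℝ × ℝ) → Set (ℝ × ℝ × ℝ) := fun g => g.1 '' Icc g.2.1 g.2.2
  let T : ℕ → ((ℝ → ℝ × ℝ × ℝ) × ℝ × ℝ) → Set ℝ := fun i g =>
    Icc g.2.1 g.2.2 ∩ g.1 ⁻¹' (⋃ l ∈ Finset.range i, K l)ᶜ
  have hrep : ∀ (i : ℕ) (J : Set (ℝ × ℝ × ℝ)), J ∈ im '' G i → ∃ g ∈ G i, im g = J := by
    rintro i J ⟨g, hg, rfl⟩
    exact ⟨g, hg, rfl⟩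
  choose! rep hrepG hrepI using hrep
  refine ⟨{C | ∃ i, ∃ J ∈ im '' G i, ∃ x ∈ T i (rep i J),
    C = (rep i J).1 '' ordConnectedComponent (T i (rep i J)) x}, ?_, ?_, ?_⟩
  · rintro C ⟨i, J, hJ, x, hx, rfl⟩ C' ⟨i', J', hJ', x', hx', rfl⟩ hne
    have hsub : ∀ (i : ℕ) (J : Set (ℝ × ℝ × ℝ)) (x : ℝ), J ∈ im '' G i →
        (rep i J).1 '' ordConnectedComponent (T i (rep i J)) x ⊆ J := by
      intro i J x hJ
      conv_rhs => rw [← hrepI i J hJ]
      exact image_mono (ordConnectedComponent_subset.trans inter_subset_left)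
    have hsubK : ∀ (i : ℕ) (J : Set (ℝ × ℝ × ℝ)), J ∈ im '' G i → J ⊆ K i := by
      intro i J hJ
      rw [← hrepI i J hJ]
      exact (hG i _ (hrepG i J hJ)).2.2.2.trans inter_subset_right
    have hav : ∀ (i l : ℕ) (J : Set (ℝ × ℝ × ℝ)) (x : ℝ), l < i → ∀ p ∈
        (rep i J).1 '' ordConnectedComponent (T i (rep i J)) x, p ∉ K l := by
      rintro i l J x hl p ⟨t, ht, rfl⟩ hp
      have := (ordConnectedComponent_subset ht).2
      exact this (mem_iUnion₂.2 ⟨l, Finset.mem_range.2 hl, hp⟩)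
    simp only [Function.onFun, id]
    rw [Set.disjoint_left]
    intro p hp hp'
    rcases lt_trichotomy i i' with h | h | h
    · exact hav i' i J' x' h p hp' (hsubK i J hJ (hsub i J x hJ hp))
    · subst h
      by_cases hJJ : J = J'
      · subst hJJ
        obtain ⟨t, ht, rfl⟩ := hp
        obtain ⟨t', ht', he⟩ := hp'
        have h1 := ordConnectedComponent_subset ht
        have h2 := ordConnectedComponent_subset ht'
        have : t' = t := (hG i _ (hrepG i J hJ)).2.2.1 h2.1 h1.1 he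
        subst this
        rw [mem_ordConnectedComponent] at ht ht'
        exact hne (by rw [ordConnectedComponent_eq ht, ordConnectedComponent_eq ht'])
      · have hd := hdis i _ (hrepG i J hJ) _ (hrepG i J' hJ')
        have e1 := hrepI i J hJ
        have e2 := hrepI i J' hJ'
        simp only [im] at e1 e2
        rw [e1, e2] at hd
        rcases hd with hd | hd
        · exact hJJ hd
        · exact Set.disjoint_left.1 hd (hsub i J x hJ hp) (hsub i J' x' hJ' hp')
    · exact hav i i' J x h p hp (hsubK i' J' hJ' (hsub i' J' x' hJ' hp'))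
  · apply Subset.antisymm
    · rintro p ⟨C, ⟨i, J, hJ, x, hx, rfl⟩, t, ht, rfl⟩
      have h1 := (ordConnectedComponent_subset ht).1
      exact ((hG i _ (hrepG i J hJ)).2.2.2 ⟨t, h1, rfl⟩).1
    · intro p hp
      have hex : ∃ i, p ∈ K i := mem_iUnion.1 (hWK hp)
      let i := Nat.find hex
      have hi : p ∈ K i := Nat.find_spec hex
      have hmin : ∀ l < i, p ∉ K l := fun l hl => Nat.find_min hex hl
      obtain ⟨g, hg, hpg⟩ := hcov i p ⟨hp, hi⟩
      have hJ : im g ∈ im '' G i := ⟨g, hg, rfl⟩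
      have e1 := hrepI i (im g) hJ
      have hpg' : p ∈ im (rep i (im g)) := by rw [e1]; exact hpg
      obtain ⟨t, ht, hpt⟩ := hpg'
      have htT : t ∈ T i (rep i (im g)) := by
        refine ⟨ht, ?_⟩
        simp only [mem_preimage, mem_compl_iff, mem_iUnion, Finset.mem_range, not_exists]
        intro l hl hk
        rw [hpt] at hk
        exact hmin l hl hk
      exact ⟨_, ⟨i, im g, hJ, t, htT, rfl⟩, t, self_mem_ordConnectedComponent.2 htT, hpt⟩
  · rintro C ⟨i, J, hJ, x, hx, rfl⟩
    have hg := hG i _ (hrepG i J hJ)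
    refine ⟨i, rep i J, hrepG i J hJ, ordConnectedComponent (T i (rep i J)) x,
      ordConnectedComponent_subset.trans inter_subset_left, inferInstance, ?_, rfl⟩
    have hcl : IsClosed (⋃ l ∈ Finset.range i, K l) :=
      isClosed_biUnion_finset fun l _ => hK l
    exact comp_nontrivial hg.2.1 (hcl.isOpen_compl.preimage hg.1) hx

end Pool.Agent.H332.Tm
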